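import Pool.Agent.Helper114.AB.J
import Pool.Agent.Y776.Fam.An

/-!
# Analyticity of the functions attached to families of lattices, several variables
-/

set_option autoImplicit false

open Filter Topology Set
open scoped PeriodPair

noncomputable section

namespace Pool.Agent.N603.AX

open H667R3 Pool.Agent.W245.EB Pool.Agent.Y685 Pool.Agent.Y685.H2 Pool.Agent.Y776.Fam

section osgood

open Complex Metric
open Pool.Agent.Helper114.AB.Osg16 (Bf exB u_apply u_an)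

/-- Osgood's lemma on a polydisc -/
theorem osg (g : ℂ × ℂ → ℂ) (z₀ w₀ : ℂ)
    (hc : ∀ z ∈ closedBall z₀ 1, ∀ w ∈ closedBall w₀ 1, ContinuousAt g (z, w))
    (hd1 : ∀ z ∈ closedBall z₀ 1, ∀ w ∈ closedBall w₀ 1, DifferentiableAt ℂ (fun v => g (z, v)) w)
    (hd2 : ∀ z ∈ closedBall z₀ 1, ∀ w ∈ closedBall w₀ 1,
      DifferentiableAt ℂ (fun ζ => g (ζ, w)) z) : AnalyticAt ℂ g (z₀, w₀) := by
  have m1 : ∀ (c : ℂ) (θ : ℝ), circleMap c 1 θ ∈ closedBall c 1 := fun c θ =>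
    circleMap_mem_closedBall c zero_le_one θ
  set k : ℝ → ℝ → ℂ := fun θ η => deriv (circleMap z₀ 1) θ * deriv (circleMap w₀ 1) η *
    g (circleMap z₀ 1 θ, circleMap w₀ 1 η) with hkdef
  have hk : Continuous (fun p : ℝ × ℝ => k p.1 p.2) := by
    simp only [hkdef, deriv_circleMap]
    have h1 := continuous_circleMap z₀ 1
    have h2 := continuous_circleMap w₀ 1
    have h3 := continuous_circleMap 0 1
    have h4 : Continuous fun p : ℝ × ℝ => g (circleMap z₀ 1 p.1, circleMap w₀ 1 p.2) := by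
      rw [continuous_iff_continuousAt]
      intro p
      have h5 : Continuous fun p : ℝ × ℝ => (circleMap z₀ 1 p.1, circleMap w₀ 1 p.2) := by
        fun_prop
      exact ContinuousAt.comp (f := fun p : ℝ × ℝ => (circleMap z₀ 1 p.1, circleMap w₀ 1 p.2))
        (g := g) (hc _ (m1 z₀ p.1) _ (m1 w₀ p.2)) h5.continuousAt
    exact (((h3.comp continuous_fst).mul continuous_const).mul
      ((h3.comp continuous_snd).mul continuous_const)).mul h4
  obtain ⟨B, hB⟩ := exB hk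
  have key : ∀ z w : ℂ, ‖z - z₀‖ < 1 → ‖w - w₀‖ < 1 →
      B (Pool.Agent.Helper114.AB.Osg16.u z₀ z) (Pool.Agent.Helper114.AB.Osg16.u w₀ w) =
        (2 * Real.pi * I : ℂ) * ((2 * Real.pi * I : ℂ) * g (z, w)) := by
    intro z w hz hw
    have hz' : z ∈ ball z₀ 1 := by rwa [mem_ball, dist_eq_norm]
    have hw' : w ∈ ball w₀ 1 := by rwa [mem_ball, dist_eq_norm]
    rw [hB]
    have h1 : ∀ ζ ∈ closedBall z₀ 1,
        (∮ v in C(w₀, 1), (v - w)⁻¹ • g (ζ, v)) = (2 * Real.pi * I : ℂ) • g (ζ, w) := by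
      intro ζ hζ
      have hd : DifferentiableOn ℂ (fun v => g (ζ, v)) (closedBall w₀ 1) := fun v hv =>
        (hd1 ζ hζ v hv).differentiableWithinAt
      exact hd.circleIntegral_sub_inv_smul hw'
    have h2 : (∮ ζ in C(z₀, 1), (ζ - z)⁻¹ • ((2 * Real.pi * I : ℂ) • g (ζ, w))) =
        (2 * Real.pi * I : ℂ) • ((2 * Real.pi * I : ℂ) • g (z, w)) := by
      have hd : DifferentiableOn ℂ (fun ζ => (2 * Real.pi * I : ℂ) • g (ζ, w))
          (closedBall z₀ 1) := fun ζ hζ =>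
        ((hd2 ζ hζ w (ball_subset_closedBall hw')).const_smul
          (2 * Real.pi * I : ℂ)).differentiableWithinAt
      exact hd.circleIntegral_sub_inv_smul hz'
    rw [smul_eq_mul, smul_eq_mul] at h2
    rw [← h2]
    unfold Bf circleIntegral
    congr 1
    funext θ
    have h3 : (2 * Real.pi * I : ℂ) • g (circleMap z₀ 1 θ, w) =
        ∮ v in C(w₀, 1), (v - w)⁻¹ • g (circleMap z₀ 1 θ, v) := (h1 _ (m1 z₀ θ)).symm
    show _ = deriv (circleMap z₀ 1) θ • ((circleMap z₀ 1 θ - z)⁻¹ •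
      ((2 * Real.pi * I : ℂ) • g (circleMap z₀ 1 θ, w)))
    rw [h3]
    unfold circleIntegral
    rw [← intervalIntegral.integral_smul, ← intervalIntegral.integral_smul]
    congr 1
    funext η
    rw [u_apply hz, u_apply hw]
    simp only [hkdef, smul_eq_mul]
    ring
  have han : AnalyticAt ℂ (fun p : ℂ × ℂ => B (Pool.Agent.Helper114.AB.Osg16.u z₀ p.1)
      (Pool.Agent.Helper114.AB.Osg16.u w₀ p.2)) (z₀, w₀) := by
    have h1 : AnalyticAt ℂ (fun p : ℂ × ℂ => Pool.Agent.Helper114.AB.Osg16.u z₀ p.1) (z₀, w₀) :=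
      AnalyticAt.comp_of_eq (g := Pool.Agent.Helper114.AB.Osg16.u z₀)
        (f := fun p : ℂ × ℂ => p.1) (u_an z₀) analyticAt_fst rfl
    have h2 : AnalyticAt ℂ (fun p : ℂ × ℂ => Pool.Agent.Helper114.AB.Osg16.u w₀ p.2) (z₀, w₀) :=
      AnalyticAt.comp_of_eq (g := Pool.Agent.Helper114.AB.Osg16.u w₀)
        (f := fun p : ℂ × ℂ => p.2) (u_an w₀) analyticAt_snd rfl
    have h3 := (B.analyticAt_bilinear (Pool.Agent.Helper114.AB.Osg16.u z₀ z₀,
      Pool.Agent.Helper114.AB.Osg16.u w₀ w₀))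
    exact AnalyticAt.comp_of_eq (g := fun x => B x.1 x.2)
      (f := fun p : ℂ × ℂ => (Pool.Agent.Helper114.AB.Osg16.u z₀ p.1,
        Pool.Agent.Helper114.AB.Osg16.u w₀ p.2)) h3 (h1.prod h2) rfl
  have han2 : AnalyticAt ℂ (fun p : ℂ × ℂ => ((2 * Real.pi * I : ℂ) * (2 * Real.pi * I : ℂ))⁻¹ *
      B (Pool.Agent.Helper114.AB.Osg16.u z₀ p.1) (Pool.Agent.Helper114.AB.Osg16.u w₀ p.2))
        (z₀, w₀) := analyticAt_const.mul han
  refine han2.congr ?_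
  have hU : ball z₀ 1 ×ˢ ball w₀ 1 ∈ 𝓝 ((z₀, w₀) : ℂ × ℂ) :=
    prod_mem_nhds (ball_mem_nhds _ one_pos) (ball_mem_nhds _ one_pos)
  filter_upwards [hU] with p hp
  have h1 : ‖p.1 - z₀‖ < 1 := by rw [← dist_eq_norm]; exact hp.1
  have h2 : ‖p.2 - w₀‖ < 1 := by rw [← dist_eq_norm]; exact hp.2
  rw [key p.1 p.2 h1 h2]
  have h3 : (2 * Real.pi * I : ℂ) ≠ 0 := by
    simp [Real.pi_ne_zero, I_ne_zero]
  field_simp

/-- continuous and separately holomorphic functions are analytic -/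
theorem SH_an {f : ℂ → ℂ → ℂ} {p : ℂ × ℂ} (h : SH f p) :
    AnalyticAt ℂ (fun q : ℂ × ℂ => f q.1 q.2) p := by
  obtain ⟨r, hr, hb⟩ := h.ball
  set ρ : ℂ := ((r / 2 : ℝ) : ℂ) with hρ
  have hρ0 : ρ ≠ 0 := by
    rw [hρ]
    exact_mod_cast (half_pos hr).ne'
  have hρn : ‖ρ‖ = r / 2 := by
    rw [hρ, Complex.norm_real, Real.norm_of_nonneg (by linarith)]
  have hin : ∀ a : ℂ, ∀ z ∈ closedBall (0 : ℂ) 1, a + ρ * z ∈ ball a r := by
    intro a z hz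
    rw [mem_closedBall, dist_zero_right] at hz
    rw [mem_ball, dist_eq_norm, add_sub_cancel_left, norm_mul, hρn]
    nlinarith
  have ha : ∀ (a z : ℂ), HasDerivAt (fun z => a + ρ * z) ρ z := by
    intro a z
    simpa using ((hasDerivAt_id z).const_mul ρ).const_add a
  have h1 : AnalyticAt ℂ (fun q : ℂ × ℂ => f (p.1 + ρ * q.1) (p.2 + ρ * q.2)) (0, 0) := by
    refine osg _ 0 0 (fun z hz w hw => ?_) (fun z hz w hw => ?_) (fun z hz w hw => ?_)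
    · have h2 := (hb _ (hin p.1 z hz) _ (hin p.2 w hw)).cont
      have h3 : Continuous fun q : ℂ × ℂ => (p.1 + ρ * q.1, p.2 + ρ * q.2) := by fun_prop
      exact ContinuousAt.comp (f := fun q : ℂ × ℂ => (p.1 + ρ * q.1, p.2 + ρ * q.2))
        (g := fun q : ℂ × ℂ => f q.1 q.2) (x := (z, w)) h2 h3.continuousAt
    · have h2 := (hb _ (hin p.1 z hz) _ (hin p.2 w hw)).d2
      exact DifferentiableAt.comp w h2 (ha p.2 w).differentiableAt
    · have h2 := (hb _ (hin p.1 z hz) _ (hin p.2 w hw)).d1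
      exact DifferentiableAt.comp (g := fun t => f t (p.2 + ρ * w)) z h2
        (ha p.1 z).differentiableAt
  have h4 : AnalyticAt ℂ (fun q : ℂ × ℂ => ((q.1 - p.1) / ρ, (q.2 - p.2) / ρ)) p :=
    ((analyticAt_fst.sub analyticAt_const).div analyticAt_const hρ0).prod
      ((analyticAt_snd.sub analyticAt_const).div analyticAt_const hρ0)
  have h5 := AnalyticAt.comp_of_eq (g := fun q : ℂ × ℂ => f (p.1 + ρ * q.1) (p.2 + ρ * q.2))
    (f := fun q : ℂ × ℂ => ((q.1 - p.1) / ρ, (q.2 - p.2) / ρ)) h1 h4 (by simp)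
  refine h5.congr (Eventually.of_forall fun q => ?_)
  change f (p.1 + ρ * ((q.1 - p.1) / ρ)) (p.2 + ρ * ((q.2 - p.2) / ρ)) = f q.1 q.2
  rw [mul_div_cancel₀ _ hρ0, mul_div_cancel₀ _ hρ0, add_sub_cancel, add_sub_cancel]

end osgood

variable {E : Type} [NormedAddCommGroup E] [NormedSpace ℂ E]

theorem SH_comp {f : ℂ → ℂ → ℂ} {a b : E → ℂ} {z₀ : E}
    (hf : SH f (a z₀, b z₀)) (ha : AnalyticAt ℂ a z₀) (hb : AnalyticAt ℂ b z₀) :
    AnalyticAt ℂ (fun z => f (a z) (b z)) z₀ :=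
  AnalyticAt.comp_of_eq (g := fun q : ℂ × ℂ => f q.1 q.2) (f := fun z => (a z, b z)) (SH_an hf)
    (ha.prod hb) rfl

theorem an_of_diffE {f : ℂ → ℂ} {a : E → ℂ} {z₀ : E} (hf : ∀ᶠ t in 𝓝 (a z₀), DifferentiableAt ℂ f t)
    (ha : AnalyticAt ℂ a z₀) : AnalyticAt ℂ (fun z => f (a z)) z₀ :=
  AnalyticAt.comp_of_eq (g := f) (f := a) (Complex.analyticAt_iff_eventually_differentiableAt.2 hf)
    ha rfl

/-- an analytic family of lattices -/
structure LFE (U : Set E) (Λ : E → PeriodPair) : Prop where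
  an₁ : AnalyticOnNhd ℂ (fun z => (Λ z).ω₁) U
  an₂ : AnalyticOnNhd ℂ (fun z => (Λ z).ω₂) U

variable {U : Set E} {Λ : E → PeriodPair}

theorem LFE.an_nt (h : LFE U Λ) (ε : ℂ) {z₀ : E} (hz : z₀ ∈ U) :
    AnalyticAt ℂ (fun z => nt ε (Λ z)) z₀ := by
  unfold nt
  exact analyticAt_const.mul ((h.an₂ z₀ hz).div (h.an₁ z₀ hz) (ω₁_ne_zero _))

theorem LFE.exists_norm (h : LFE U Λ) {z₀ : E} (hz : z₀ ∈ U) : ∃ ε : ℂ, (ε = 1 ∨ ε = -1) ∧
    ∀ᶠ z in 𝓝 z₀, 0 < (nt ε (Λ z)).im := by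
  have hc : ∀ ε : ℂ, ContinuousAt (fun z => (nt ε (Λ z)).im) z₀ := fun ε =>
    Complex.continuous_im.continuousAt.comp (h.an_nt ε hz).continuousAt
  rcases lt_or_gt_of_ne (im_ne (Λ z₀)) with h3 | h3
  · refine ⟨-1, Or.inr rfl, (hc (-1)).eventually (lt_mem_nhds ?_)⟩
    simp only [nt, neg_mul, one_mul, Complex.neg_im]
    linarith
  · refine ⟨1, Or.inl rfl, (hc 1).eventually (lt_mem_nhds ?_)⟩
    simp only [nt, one_mul]
    exact h3

theorem LFE.an_g₂ (h : LFE U Λ) : AnalyticOnNhd ℂ (fun z => (Λ z).g₂) U := by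
  intro z₀ hz
  obtain ⟨ε, hε, hev⟩ := h.exists_norm hz
  have h1 : AnalyticAt ℂ (fun z => (LC (nt ε (Λ z))).g₂ / (Λ z).ω₁ ^ 4) z₀ := by
    refine AnalyticAt.div ?_ ((h.an₁ z₀ hz).pow 4) (pow_ne_zero _ (ω₁_ne_zero _))
    refine an_of_diffE (f := fun s => (LC s).g₂) ?_ (h.an_nt ε hz)
    filter_upwards [ev_im hev.self_of_nhds] with s hs
    exact (diff_g hs).1
  refine h1.congr ?_
  filter_upwards [hev] with z hz'
  exact ((Hm_nt (Λ z) hε hz').g₂).symm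

theorem LFE.an_g₃ (h : LFE U Λ) : AnalyticOnNhd ℂ (fun z => (Λ z).g₃) U := by
  intro z₀ hz
  obtain ⟨ε, hε, hev⟩ := h.exists_norm hz
  have h1 : AnalyticAt ℂ (fun z => (LC (nt ε (Λ z))).g₃ / (Λ z).ω₁ ^ 6) z₀ := by
    refine AnalyticAt.div ?_ ((h.an₁ z₀ hz).pow 6) (pow_ne_zero _ (ω₁_ne_zero _))
    refine an_of_diffE (f := fun s => (LC s).g₃) ?_ (h.an_nt ε hz)
    filter_upwards [ev_im hev.self_of_nhds] with s hs
    exact (diff_g hs).2
  refine h1.congr ?_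
  filter_upwards [hev] with z hz'
  exact ((Hm_nt (Λ z) hε hz').g₃).symm

theorem LFE.an_eta (h : LFE U Λ) : AnalyticOnNhd ℂ (fun z => eta (Λ z) (Λ z).ω₁) U := by
  intro z₀ hz
  obtain ⟨ε, hε, hev⟩ := h.exists_norm hz
  have h1 : AnalyticAt ℂ (fun z => h1 (nt ε (Λ z)) / (Λ z).ω₁) z₀ := by
    refine AnalyticAt.div ?_ (h.an₁ z₀ hz) (ω₁_ne_zero _)
    refine an_of_diffE ?_ (h.an_nt ε hz)
    filter_upwards [ev_im hev.self_of_nhds] with s hs
    exact diff_h1 hs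
  refine h1.congr ?_
  filter_upwards [hev] with z hz'
  have := (Hm_nt (Λ z) hε hz').eta (one_mem hz')
  rw [mul_one] at this
  rw [this]
  rfl

theorem LFE.an_zeta (h : LFE U Λ) {p : E → ℂ} (hp : AnalyticOnNhd ℂ p U)
    (hpn : ∀ z ∈ U, p z ∉ (Λ z).lattice) :
    AnalyticOnNhd ℂ (fun z => zeta (Λ z) (p z)) U := by
  intro z₀ hz
  obtain ⟨ε, hε, hev⟩ := h.exists_norm hz
  have hq : AnalyticAt ℂ (fun z => p z / (Λ z).ω₁) z₀ := (hp z₀ hz).div (h.an₁ z₀ hz) (ω₁_ne_zero _)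
  have hn : p z₀ / (Λ z₀).ω₁ ∉ (LC (nt ε (Λ z₀))).lattice := by
    rw [← (Hm_nt (Λ z₀) hε hev.self_of_nhds).notMem, mul_div_cancel₀ _ (ω₁_ne_zero _)]
    exact hpn z₀ hz
  have h1 : AnalyticAt ℂ (fun z => zeta (LC (nt ε (Λ z))) (p z / (Λ z).ω₁) / (Λ z).ω₁) z₀ :=
    (SH_comp (f := fun t z => zeta (LC t) z) (a := fun z => nt ε (Λ z))
      (b := fun z => p z / (Λ z).ω₁) (SH_zeta hev.self_of_nhds hn) (h.an_nt ε hz) hq).div
      (h.an₁ z₀ hz) (ω₁_ne_zero _)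
  refine h1.congr ?_
  filter_upwards [hev] with z hz'
  have := (Hm_nt (Λ z) hε hz').zeta (p z / (Λ z).ω₁)
  rw [mul_div_cancel₀ _ (ω₁_ne_zero _)] at this
  exact this.symm

theorem LFE.an_wp (h : LFE U Λ) {p : E → ℂ} (hp : AnalyticOnNhd ℂ p U)
    (hpn : ∀ z ∈ U, p z ∉ (Λ z).lattice) :
    AnalyticOnNhd ℂ (fun z => ℘[Λ z] (p z)) U := by
  intro z₀ hz
  obtain ⟨ε, hε, hev⟩ := h.exists_norm hz
  have hq : AnalyticAt ℂ (fun z => p z / (Λ z).ω₁) z₀ := (hp z₀ hz).div (h.an₁ z₀ hz) (ω₁_ne_zero _)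
  have hn : p z₀ / (Λ z₀).ω₁ ∉ (LC (nt ε (Λ z₀))).lattice := by
    rw [← (Hm_nt (Λ z₀) hε hev.self_of_nhds).notMem, mul_div_cancel₀ _ (ω₁_ne_zero _)]
    exact hpn z₀ hz
  have h1 : AnalyticAt ℂ (fun z => ℘[LC (nt ε (Λ z))] (p z / (Λ z).ω₁) / (Λ z).ω₁ ^ 2) z₀ :=
    (SH_comp (f := fun t z => ℘[LC t] z) (a := fun z => nt ε (Λ z))
      (b := fun z => p z / (Λ z).ω₁) (SH_wp hev.self_of_nhds hn) (h.an_nt ε hz) hq).div
      ((h.an₁ z₀ hz).pow 2) (pow_ne_zero _ (ω₁_ne_zero _))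
  refine h1.congr ?_
  filter_upwards [hev] with z hz'
  have := (Hm_nt (Λ z) hε hz').wp (p z / (Λ z).ω₁)
  rw [mul_div_cancel₀ _ (ω₁_ne_zero _)] at this
  exact this.symm

end Pool.Agent.N603.AX
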