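import Pool.Agent.N207.AX.Stm
import Pool.Agent.N603.AX.Osg

/-!
# Ax's theorem for families of lattices, functions of several variables
-/

set_option autoImplicit false

open Filter Topology Set
open scoped PeriodPair

noncomputable section

namespace Pool.Agent.N603.AX

open H667R3 Pool.Agent.N207.AX Pool.Agent.W245.EB Pool.Agent.Y685 Pool.Agent.Y685.H2

variable {X : Type} [Fintype X] {r s : ℕ} {U : Set (X → ℂ)} {Λ : (X → ℂ) → PeriodPair}
  {u : Fin r → (X → ℂ) → ℂ} {l : Fin s → (X → ℂ) → ℂ}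

theorem yw_an (h1 : AnalyticOnNhd ℂ (fun z => (Λ z).ω₁) U)
    (h2 : AnalyticOnNhd ℂ (fun z => (Λ z).ω₂) U) (hu : ∀ i, AnalyticOnNhd ℂ (u i) U)
    (hn : ∀ i, ∀ z ∈ U, u i z ∉ (Λ z).lattice) (hl : ∀ k, AnalyticOnNhd ℂ (l k) U)
    (i : Pool.Agent.Y776.Cv.Nv r s) : AnalyticOnNhd ℂ (yw Λ u l i) U := by
  have hL : LFE U Λ := ⟨h1, h2⟩
  rcases i with j | i | i | i | k | k
  · fin_cases j
    · exact hL.an₁
    · exact hL.an₂
    · exact hL.an_eta
    · exact hL.an_g₂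
    · exact hL.an_g₃
  · exact hu i
  · exact hL.an_zeta (hu i) (hn i)
  · exact hL.an_wp (hu i) (hn i)
  · exact hl k
  · exact fun z hz => (hl k z hz).cexp

theorem line_an {f : (X → ℂ) → ℂ} (hf : AnalyticOnNhd ℂ f U) {x v : X → ℂ} {D : Set ℂ}
    (hD : ∀ τ ∈ D, x + τ • v ∈ U) : AnalyticOnNhd ℂ (fun τ : ℂ => f (x + τ • v)) D := by
  intro τ hτ
  have h1 : AnalyticAt ℂ (fun τ : ℂ => x + τ • v) τ :=
    analyticAt_const.add (analyticAt_id.smul analyticAt_const)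
  exact AnalyticAt.comp_of_eq (g := f) (f := fun τ : ℂ => x + τ • v) (hf _ (hD τ hτ)) h1 rfl

theorem deriv_const_on {f : ℂ → ℂ} {D : Set ℂ} (hD : IsOpen D) (h0 : (0 : ℂ) ∈ D) {c : ℂ}
    (h : ∀ τ ∈ D, f τ = c) : deriv f 0 = 0 := by
  have h1 : f =ᶠ[𝓝 0] fun _ => c := by
    filter_upwards [hD.mem_nhds h0] with τ hτ
    exact h τ hτ
  rw [h1.deriv_eq, deriv_const]

theorem var (hI : StmInd) : StmVar := by
  intro X _ r s U Λ u l hU hUc hUne h1 h2 hnr hua hun hui hla hli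
  let ι := {p : (Fin r → ℤ) × ℤ × ℤ // p.1 ≠ 0}
  let κ := Unit ⊕ {m : Fin s → ℤ // m ≠ 0}
  let h : ι → (X → ℂ) → ℂ := fun p z =>
    ∑ i, (p.1.1 i : ℂ) * u i z - ((p.1.2.1 : ℂ) * (Λ z).ω₁ + (p.1.2.2 : ℂ) * (Λ z).ω₂)
  let k : κ → (X → ℂ) → ℂ := Sum.elim (fun _ z => (Λ z).ω₂ / (Λ z).ω₁)
    (fun m z => ∑ j, (m.1 j : ℂ) * l j z)
  have hh : ∀ i, AnalyticOnNhd ℂ (h i) U := by
    intro p z hz
    exact (Finset.analyticAt_fun_sum _ fun i _ => analyticAt_const.mul (hua i z hz)).sub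
      ((analyticAt_const.mul (h1 z hz)).add (analyticAt_const.mul (h2 z hz)))
  have hk : ∀ i, AnalyticOnNhd ℂ (k i) U := by
    rintro (_ | m) z hz
    · exact (h2 z hz).div (h1 z hz) (ω₁_ne_zero _)
    · exact Finset.analyticAt_fun_sum _ fun i _ => analyticAt_const.mul (hla i z hz)
  have hh0 : ∀ i, ∃ z ∈ U, h i z ≠ 0 := by
    rintro ⟨⟨m, a, b⟩, hm⟩
    by_contra hcon
    push Not at hcon
    refine hm (hui m fun z hz => ?_)
    rw [PeriodPair.mem_lattice]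
    exact ⟨a, b, (sub_eq_zero.1 (hcon z hz)).symm⟩
  have hk0 : ∀ i c, ∃ z ∈ U, k i z ≠ c := by
    rintro (_ | m) c
    · exact hnr c
    · by_contra hcon
      push Not at hcon
      exact m.2 (hli m.1 c hcon)
  refine hI X (Pool.Agent.Y776.Cv.Nv r s) ι κ (3 + (s + 2 * r)) U hU hUc hUne (yw Λ u l)
    (yw_an h1 h2 hua hun hla) h k hh hk hh0 hk0 ?_
  intro x hx v D hD hDc h0D hDU hhx hkx
  have hF : Pool.Agent.Y776.Cv.FxV D (fun τ : ℂ => Λ (x + τ • v))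
      (fun i τ => u i (x + τ • v)) (fun j τ => l j (x + τ • v)) := by
    refine ⟨⟨hD, hDc, line_an h1 hDU, line_an h2 hDU⟩, ?_, fun i => line_an (hua i) hDU,
      fun i τ hτ => hun i _ (hDU τ hτ), ?_, fun j => line_an (hla j) hDU, ?_⟩
    · intro c
      by_contra hcon
      push Not at hcon
      exact hkx (Sum.inl ()) (deriv_const_on hD h0D (c := c) hcon)
    · intro m hm
      by_contra hne
      have h3 := hm 0 h0D
      simp only [zero_smul, add_zero] at h3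
      rw [PeriodPair.mem_lattice] at h3
      obtain ⟨a, b, hab⟩ := h3
      exact hhx ⟨⟨m, a, b⟩, hne⟩ (sub_eq_zero.2 hab.symm)
    · intro m c hc
      by_contra hne
      exact hkx (Sum.inr ⟨m, hne⟩) (deriv_const_on hD h0D (c := c) hc)
  obtain ⟨e, he, hL⟩ := Pool.Agent.Y776.Cv.var_sub hF ⟨0, h0D⟩
  refine ⟨e, he, ?_⟩
  have h4 := hL 0 h0D
  have h5 : (fun (j : Fin (3 + (s + 2 * r))) (τ : ℂ) => yw Λ u l (e j) (x + τ • v)) =
      fun j => Pool.Agent.Y776.Cv.yv (fun τ : ℂ => Λ (x + τ • v))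
        (fun i τ => u i (x + τ • v)) (fun j τ => l j (x + τ • v)) (e j) := by
    funext j τ
    generalize e j = i
    rcases i with i | i | i | i | i | i <;> rfl
  rw [h5]
  exact h4

end Pool.Agent.N603.AX
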